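import Mathlib
import Pool.Agent.Helper24.Seg.Main

/-!
# MP_e9c934_an: no nondegenerate segment in `ℝ³` is removable for local homeomorphisms of
bounded distortion

The map is `F ∘ (inversion)` (up to a similarity), where `F : ℝ³ → ℝ³` is an explicit piecewise
linear map, equivariant under the scaling `x ↦ 4 x`, given by 526 tetrahedra (modulo scaling) with
integral vertices in the domain and in the target.  `F` is a local homeomorphism off a ray and winds
three times around this ray.  It was found from a branched covering of degree 6 of `S² × S¹` onto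
itself whose branch curve is isotopic to a fibre circle.
-/

open Set Filter Topology

namespace Pool.Agent.Results.MP_e9c934_an.SegmentNotRemovable

/-- Euclidean space of dimension `n`. -/
abbrev E (n : ℕ) := EuclideanSpace ℝ (Fin n)

/-- `f` restricted to `W` is a local homeomorphism: every point of `W` has an open neighbourhood
contained in `W` which `f` maps homeomorphically onto an open subset of `ℝⁿ`. -/
def IsLocalHomeoOn {n : ℕ} (f : E n → E n) (W : Set (E n)) : Prop :=
  ∀ x ∈ W, ∃ e : OpenPartialHomeomorph (E n) (E n), x ∈ e.source ∧ e.source ⊆ W ∧ EqOn f e e.source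

/-- `f` is locally Lipschitz on `W` (so that it lies in `W^{1,∞}_loc(W) ⊆ W^{1,n}_loc(W)` and its
weak derivative is the almost everywhere defined pointwise derivative), and for some constant `K`,
at almost every point of `W` the derivative exists, is invertible, and
`max_{|h|=1} |f'(x) h| ≤ K min_{|h|=1} |f'(x) h|`. -/
def HasBoundedDistortionOn {n : ℕ} (f : E n → E n) (W : Set (E n)) : Prop :=
  (∀ x ∈ W, ∃ C : NNReal, ∃ U ∈ 𝓝 x, LipschitzOnWith C f U) ∧
  ∃ K : ℝ, ∀ᵐ x : E n, x ∈ W → DifferentiableAt ℝ f x ∧ (fderiv ℝ f x).det ≠ 0 ∧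
    ∀ h h' : E n, ‖h‖ = 1 → ‖h'‖ = 1 → ‖fderiv ℝ f x h‖ ≤ K * ‖fderiv ℝ f x h'‖

/-- `I ⊆ U` is a removable singularity of `f : U \ I → ℝⁿ`. -/
def IsRemovable {n : ℕ} (f : E n → E n) (I U : Set (E n)) : Prop :=
  ∃ V : Set (E n), IsOpen V ∧ I ⊆ V ∧ V ⊆ U ∧ InjOn f (V \ I) ∧
    ∃ e : OpenPartialHomeomorph (E n) (E n), e.source = V ∧ EqOn f e (V \ I)

/-- For every nondegenerate closed segment `[a,b]` in `ℝ³` there is a local homeomorphism `f` of
bounded distortion from `ℝ³ \ [a,b]` to `ℝ³`, extending continuously to `ℝ³ \ {a}`, which is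
non-injective on every punctured neighbourhood `W \ [a,b]` of every point of `[a,b]`; in particular
`[a,b]` is not a removable singularity of `f` on `U \ [a,b]`, for any open `U ⊇ [a,b]`. -/
theorem result (a b : E 3) (hab : a ≠ b) :
    ∃ f : E 3 → E 3,
      IsLocalHomeoOn f (segment ℝ a b)ᶜ ∧
      HasBoundedDistortionOn f (segment ℝ a b)ᶜ ∧
      ContinuousOn f {a}ᶜ ∧
      (∀ x ∈ segment ℝ a b, ∀ W ∈ 𝓝 x, ¬ InjOn f (W \ segment ℝ a b)) ∧
      ∀ U : Set (E 3), IsOpen U → segment ℝ a b ⊆ U → ¬ IsRemovable f (segment ℝ a b) U := by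
  obtain ⟨f, K, h1, h2, h3, h4, h5⟩ := Seg.main1 a b hab
  refine ⟨f, h1, ⟨h2, K, h3⟩, h5, h4, ?_⟩
  rintro U _ _ ⟨V, hV, hIV, _, hinj, _⟩
  exact h4 a (left_mem_segment ℝ a b) V (hV.mem_nhds (hIV (left_mem_segment ℝ a b))) hinj

end Pool.Agent.Results.MP_e9c934_an.SegmentNotRemovable
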